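import Pool.Agent.Helper35.PQF.St2

/-!
# Project PQF (MP_d112a4_gt), module GE3 (helper64)
-/

set_option autoImplicit false

open Filter Topology Set MeasureTheory
open scoped ENNReal

namespace Pool.Agent.Helper64.PM

open Pool.Agent.Helper35.PM

/-! ## Elementary inequalities -/

lemma exp_lb {g : ℝ} (h : |g| ≤ 1 / 10) : 1 + g + g ^ 2 / 3 ≤ Real.exp g := by
  have h1 : |g| ≤ 1 := by linarith
  have h2 := Real.exp_bound h1 (n := 3) (by norm_num)
  have h3 := (abs_le.mp h2).1
  simp only [Finset.sum_range_succ, Finset.sum_range_zero, Nat.factorial, pow_zero, pow_one] at h3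
  norm_num at h3
  have h4 : |g| ^ 3 ≤ g ^ 2 / 10 := by
    have : |g| ^ 3 = |g| * g ^ 2 := by rw [← sq_abs g]; ring
    rw [this]
    nlinarith [sq_nonneg g]
  nlinarith [sq_nonneg g]

lemma exp_half_ub {g : ℝ} (h0 : 0 ≤ g) (h : g ≤ 1 / 10) : Real.exp (g / 2) ≤ 1 + 2 * g / 3 := by
  have h1 : |g / 2| ≤ 1 := by rw [abs_of_nonneg (by linarith)]; linarith
  have h2 := Real.abs_exp_sub_one_sub_id_le h1
  have h3 := (abs_le.mp h2).2
  nlinarith

lemma pair_le {a b g : ℝ} (ha : 0 < a) (hg : |g| ≤ 1 / 10)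
    (h1 : 0 ≤ g → a ≤ b ∧ b ≤ a * Real.exp (g / 2))
    (h2 : g ≤ 0 → b ≤ a ∧ a * Real.exp (g / 2) ≤ b) :
    (b - a) * g ≤ (a + b) * (g ^ 2 / 3) := by
  rcases le_total 0 g with h | h
  · obtain ⟨h3, h4⟩ := h1 h
    rw [abs_of_nonneg h] at hg
    have h5 := exp_half_ub h hg
    have h6 : a * Real.exp (g / 2) ≤ a * (1 + 2 * g / 3) := mul_le_mul_of_nonneg_left h5 ha.le
    have h7 : b - a ≤ (a + b) * (g / 3) := by nlinarith
    calc (b - a) * g ≤ (a + b) * (g / 3) * g := mul_le_mul_of_nonneg_right h7 h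
      _ = (a + b) * (g ^ 2 / 3) := by ring
  · obtain ⟨h3, h4⟩ := h2 h
    rw [abs_of_nonpos h] at hg
    have h5 := Real.add_one_le_exp (g / 2)
    have h6 : a * (g / 2 + 1) ≤ a * Real.exp (g / 2) := mul_le_mul_of_nonneg_left h5 ha.le
    have h7 : a - b ≤ (a + b) * (-g / 3) := by nlinarith
    calc (b - a) * g = (a - b) * (-g) := by ring
      _ ≤ (a + b) * (-g / 3) * (-g) := mul_le_mul_of_nonneg_right h7 (by linarith)
      _ = (a + b) * (g ^ 2 / 3) := by ring

lemma cosh_ub {d : ℝ} : 2 * Real.cosh d - 2 ≤ d ^ 2 * Real.exp (d ^ 2 / 2) := by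
  have h1 := Real.cosh_le_exp_half_sq d
  have h2 : Real.exp (d ^ 2 / 2) - 1 ≤ d ^ 2 / 2 * Real.exp (d ^ 2 / 2) := by
    have h3 := Real.add_one_le_exp (-(d ^ 2 / 2))
    rw [Real.exp_neg] at h3
    have h4 := Real.exp_pos (d ^ 2 / 2)
    have h5 : (-(d ^ 2 / 2) + 1) * Real.exp (d ^ 2 / 2) ≤ 1 := by
      have := mul_le_mul_of_nonneg_right h3 h4.le
      rwa [inv_mul_cancel₀ h4.ne'] at this
    linarith
  linarith

/-! ## The function `ψ` -/

/-- `ψ = sqrt (2 - 1/u)`. -/
noncomputable def psi (u : ℝ → ℝ) (t : ℝ) : ℝ := Real.sqrt (2 - 1 / u t)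

/-- `v = log (u - 1/2)`. -/
noncomputable def vv (u : ℝ → ℝ) (t : ℝ) : ℝ := Real.log (u t - 1 / 2)

section
variable {u : ℝ → ℝ} (hu : ∀ t, 1 / 2 < u t)
  (hb : ∀ s t, u s - 1 / 2 ≤ Real.exp |s - t| * (u t - 1 / 2))
include hu

lemma exp_vv (t : ℝ) : Real.exp (vv u t) = u t - 1 / 2 :=
  Real.exp_log (by linarith [hu t])

lemma two_sub_pos (t : ℝ) : 0 < 2 - 1 / u t := by
  have h1 := hu t
  have h2 : 0 < u t := by linarith
  have : 1 / u t < 2 := by rw [div_lt_iff₀ h2]; linarith
  linarith

lemma psi_pos (t : ℝ) : 0 < psi u t := Real.sqrt_pos.mpr (two_sub_pos hu t)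

lemma psi_sq (t : ℝ) : psi u t ^ 2 = 2 - 1 / u t := Real.sq_sqrt (two_sub_pos hu t).le

lemma psi_mono {s t : ℝ} (h : vv u t ≤ vv u s) :
    psi u t ≤ psi u s ∧ psi u s ≤ psi u t * Real.exp ((vv u s - vv u t) / 2) := by
  have h1 : u t - 1 / 2 ≤ u s - 1 / 2 := by
    rw [← exp_vv hu, ← exp_vv hu]; exact Real.exp_le_exp.mpr h
  have ht : 0 < u t := by linarith [hu t]
  have hs : 0 < u s := by linarith [hu s]
  have hpt := psi_pos hu t
  have hps := psi_pos hu s
  constructor
  · apply Real.sqrt_le_sqrt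
    have : 1 / u s ≤ 1 / u t := one_div_le_one_div_of_le ht (by linarith)
    linarith
  · have he := Real.exp_pos ((vv u s - vv u t) / 2)
    apply le_of_sq_le_sq _ (by positivity)
    rw [mul_pow, psi_sq hu, psi_sq hu, ← Real.exp_nat_mul]
    have h3 : ((2 : ℕ) : ℝ) * ((vv u s - vv u t) / 2) = vv u s - vv u t := by push_cast; ring
    rw [h3, Real.exp_sub, exp_vv hu, exp_vv hu]
    have h4 : 2 - 1 / u s = 2 * (u s - 1 / 2) / u s := by field_simp
    have h5 : 2 - 1 / u t = 2 * (u t - 1 / 2) / u t := by field_simp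
    rw [h4, h5]
    have h6 : (u t - 1 / 2) ≠ 0 := by linarith [hu t]
    have h7 : 2 * (u t - 1 / 2) / u t * ((u s - 1 / 2) / (u t - 1 / 2)) =
        2 * (u s - 1 / 2) / u t := by
      generalize u t - 1 / 2 = w at h6 ⊢
      generalize u s - 1 / 2 = w'
      field_simp
    rw [h7]
    apply div_le_div_of_nonneg_left _ ht (by linarith)
    linarith [hu s]

include hb

lemma vv_le (s t : ℝ) : vv u s ≤ vv u t + |s - t| := by
  have h1 := hb s t
  have h2 : 0 < u s - 1 / 2 := by linarith [hu s]
  have h3 : 0 < u t - 1 / 2 := by linarith [hu t]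
  have h4 := Real.log_le_log h2 h1
  rw [Real.log_mul (Real.exp_pos _).ne' h3.ne', Real.log_exp] at h4
  unfold vv
  linarith

lemma vv_abs (s t : ℝ) : |vv u s - vv u t| ≤ |s - t| := by
  rw [abs_le]
  have h1 := vv_le hu hb s t
  have h2 := vv_le hu hb t s
  rw [abs_sub_comm t s] at h2
  constructor <;> linarith

lemma vv_cont : Continuous (vv u) := by
  have : LipschitzWith 1 (vv u) := by
    apply LipschitzWith.of_dist_le_mul
    intro x y
    simp only [NNReal.coe_one, one_mul, Real.dist_eq]
    exact vv_abs hu hb x y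
  exact this.continuous

lemma u_cont : Continuous u := by
  have h : u = fun t => Real.exp (vv u t) + 1 / 2 := by
    funext t
    rw [exp_vv hu]; ring
  rw [h]
  exact (Real.continuous_exp.comp (vv_cont hu hb)).add continuous_const

lemma psi_cont : Continuous (psi u) := by
  apply Real.continuous_sqrt.comp
  refine continuous_const.sub (continuous_const.div (u_cont hu hb) (fun t => ?_))
  linarith [hu t]

lemma psi_le (s t : ℝ) : psi u s ≤ psi u t * Real.exp (|s - t| / 2) := by
  have hp := psi_pos hu t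
  rcases le_total (vv u t) (vv u s) with h | h
  · refine (psi_mono hu h).2.trans ?_
    apply mul_le_mul_of_nonneg_left _ hp.le
    apply Real.exp_le_exp.mpr
    have := vv_le hu hb s t
    linarith
  · refine (psi_mono hu h).1.trans ?_
    have : (1 : ℝ) ≤ Real.exp (|s - t| / 2) := Real.one_le_exp (by positivity)
    nlinarith

/-! ## The main integral inequality -/

/-- The bracket. -/
noncomputable def brk (u : ℝ → ℝ) (d t : ℝ) : ℝ :=
  2 * Real.cosh d - Real.exp (vv u (t + d) - vv u t) - Real.exp (vv u (t - d) - vv u t)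

omit hu hb in
lemma brk_eq_aux (d t : ℝ) : brk u d t =
    2 * Real.cosh d - Real.exp (vv u (t + d) - vv u t) -
      Real.exp (-(vv u (t - d + d) - vv u (t - d))) := by
  unfold brk
  rw [sub_add_cancel, neg_sub]

lemma brk_cont (d : ℝ) : Continuous (brk u d) := by
  have hv := vv_cont hu hb
  unfold brk
  refine ((continuous_const.sub ?_).sub ?_)
  · exact Real.continuous_exp.comp ((hv.comp (continuous_id.add continuous_const)).sub hv)
  · exact Real.continuous_exp.comp ((hv.comp (continuous_id.sub continuous_const)).sub hv)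

lemma main_ineq {L d : ℝ} (hL : 0 < L) (hd : 0 < d) (hd1 : d ≤ 1 / 10) (hdL : d ≤ L) :
    ∫ t in (0 : ℝ)..L, psi u t * brk u d t ≤
      (2 * Real.cosh d - 2) * (∫ t in (0 : ℝ)..L, psi u t) +
        d ^ 2 * Real.exp (d / 2) * (psi u 0 + psi u L) := by
  have hv := vv_cont hu hb
  have hps := psi_cont hu hb
  set G : ℝ → ℝ := fun s => vv u (s + d) - vv u s with hG
  have hGc : Continuous G := (hv.comp (continuous_id.add continuous_const)).sub hv
  have hGb : ∀ s, |G s| ≤ d := by
    intro s
    have := vv_abs hu hb (s + d) s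
    rwa [add_sub_cancel_left, abs_of_pos hd] at this
  have hGb' : ∀ s, |G s| ≤ 1 / 10 := fun s => (hGb s).trans hd1
  set F1 : ℝ → ℝ := fun s => psi u (s + d) * (G s - G s ^ 2 / 3) with hF1
  set F2 : ℝ → ℝ := fun s => psi u s * (G s + G s ^ 2 / 3) with hF2
  have hF1c : Continuous F1 := by fun_prop
  have hF2c : Continuous F2 := by fun_prop
  -- pointwise bound
  have hpt : ∀ t, psi u t * brk u d t ≤ (2 * Real.cosh d - 2) * psi u t + (F1 (t - d) - F2 t) := by
    intro t
    have h1 := exp_lb (hGb' t)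
    have h2 := exp_lb (g := -(G (t - d))) (by rw [abs_neg]; exact hGb' _)
    have h3 : brk u d t = 2 * Real.cosh d - Real.exp (G t) - Real.exp (-(G (t - d))) :=
      brk_eq_aux d t
    have h4 : F1 (t - d) = psi u t * (G (t - d) - G (t - d) ^ 2 / 3) := by
      simp only [hF1, sub_add_cancel]
    rw [h3, h4]
    have hp := psi_pos hu t
    have h5 : 2 * Real.cosh d - Real.exp (G t) - Real.exp (-(G (t - d))) ≤
        (2 * Real.cosh d - 2) + ((G (t - d) - G (t - d) ^ 2 / 3) - (G t + G t ^ 2 / 3)) := by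
      nlinarith
    have h6 := mul_le_mul_of_nonneg_left h5 hp.le
    simp only [hF2]
    linarith [h6]
  have hint1 : ∀ a b : ℝ, IntervalIntegrable F1 volume a b := fun a b => hF1c.intervalIntegrable a b
  have hint2 : ∀ a b : ℝ, IntervalIntegrable F2 volume a b := fun a b => hF2c.intervalIntegrable a b
  have hbc := brk_cont hu hb d
  have hI : ∫ t in (0 : ℝ)..L, psi u t * brk u d t ≤
      ∫ t in (0 : ℝ)..L, ((2 * Real.cosh d - 2) * psi u t + (F1 (t - d) - F2 t)) := by
    apply intervalIntegral.integral_mono_on hL.le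
    · exact (hps.mul hbc).intervalIntegrable _ _
    · apply Continuous.intervalIntegrable
      fun_prop
    · intro t _
      exact hpt t
  have hF1s : Continuous (fun t => F1 (t - d)) := hF1c.comp (continuous_id.sub continuous_const)
  rw [intervalIntegral.integral_add (by apply Continuous.intervalIntegrable; fun_prop)
    (by apply Continuous.intervalIntegrable; fun_prop),
    intervalIntegral.integral_const_mul,
    intervalIntegral.integral_sub (hF1s.intervalIntegrable _ _) (hint2 _ _),
    intervalIntegral.integral_comp_sub_right F1 d, zero_sub] at hI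
  have hsp1 : ∫ s in (-d)..(L - d), F1 s = (∫ s in (-d)..0, F1 s) + ∫ s in (0 : ℝ)..(L - d), F1 s :=
    (intervalIntegral.integral_add_adjacent_intervals (hint1 _ _) (hint1 _ _)).symm
  have hsp2 : ∫ s in (0 : ℝ)..L, F2 s = (∫ s in (0 : ℝ)..(L - d), F2 s) + ∫ s in (L - d)..L, F2 s :=
    (intervalIntegral.integral_add_adjacent_intervals (hint2 _ _) (hint2 _ _)).symm
  have hmid : ∫ s in (0 : ℝ)..(L - d), F1 s ≤ ∫ s in (0 : ℝ)..(L - d), F2 s := by
    apply intervalIntegral.integral_mono_on (by linarith) (hint1 _ _) (hint2 _ _)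
    intro s _
    have hp := pair_le (a := psi u s) (b := psi u (s + d)) (g := G s) (psi_pos hu s) (hGb' s)
      (fun h => psi_mono hu (by simp only [hG] at h; linarith))
      (fun h => by
        have h1 : vv u (s + d) ≤ vv u s := by simp only [hG] at h; linarith
        obtain ⟨h2, h3⟩ := psi_mono hu h1
        refine ⟨h2, ?_⟩
        have h4 := mul_le_mul_of_nonneg_right h3 (Real.exp_pos (G s / 2)).le
        rw [mul_assoc, ← Real.exp_add] at h4
        have h5 : (vv u s - vv u (s + d)) / 2 + G s / 2 = 0 := by simp only [hG]; ring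
        rwa [h5, Real.exp_zero, mul_one] at h4)
    simp only [hF1, hF2]
    nlinarith [hp]
  have hbd1 : ∫ s in (-d)..0, F1 s ≤ d ^ 2 * Real.exp (d / 2) * psi u 0 := by
    have h1 : ∫ s in (-d)..0, F1 s ≤ ∫ s in (-d)..0, d * (psi u 0 * Real.exp (d / 2)) := by
      apply intervalIntegral.integral_mono_on (by linarith) (hint1 _ _)
        (by apply Continuous.intervalIntegrable; fun_prop)
      intro s hs
      have h2 : psi u (s + d) ≤ psi u 0 * Real.exp (d / 2) := by
        refine (psi_le hu hb (s + d) 0).trans ?_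
        apply mul_le_mul_of_nonneg_left _ (psi_pos hu 0).le
        apply Real.exp_le_exp.mpr
        rw [sub_zero, abs_of_nonneg (by linarith [hs.1])]
        linarith [hs.2]
      have h3 : G s - G s ^ 2 / 3 ≤ d := by
        have := (abs_le.mp (hGb s)).2
        nlinarith [sq_nonneg (G s)]
      have hp := psi_pos hu (s + d)
      calc F1 s = psi u (s + d) * (G s - G s ^ 2 / 3) := rfl
        _ ≤ psi u (s + d) * d := mul_le_mul_of_nonneg_left h3 hp.le
        _ ≤ psi u 0 * Real.exp (d / 2) * d := mul_le_mul_of_nonneg_right h2 hd.le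
        _ = d * (psi u 0 * Real.exp (d / 2)) := by ring
    refine h1.trans (le_of_eq ?_)
    rw [intervalIntegral.integral_const, smul_eq_mul]
    ring
  have hbd2 : -(∫ s in (L - d)..L, F2 s) ≤ d ^ 2 * Real.exp (d / 2) * psi u L := by
    rw [← intervalIntegral.integral_neg]
    have h1 : ∫ s in (L - d)..L, -F2 s ≤ ∫ s in (L - d)..L, d * (psi u L * Real.exp (d / 2)) := by
      apply intervalIntegral.integral_mono_on (by linarith) (hint2 _ _).neg
        (by apply Continuous.intervalIntegrable; fun_prop)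
      intro s hs
      have h2 : psi u s ≤ psi u L * Real.exp (d / 2) := by
        refine (psi_le hu hb s L).trans ?_
        apply mul_le_mul_of_nonneg_left _ (psi_pos hu L).le
        apply Real.exp_le_exp.mpr
        rw [abs_of_nonpos (by linarith [hs.2])]
        linarith [hs.1]
      have h3 : -(G s + G s ^ 2 / 3) ≤ d := by
        have := (abs_le.mp (hGb s)).1
        nlinarith [sq_nonneg (G s)]
      have hp := psi_pos hu s
      calc -F2 s = psi u s * (-(G s + G s ^ 2 / 3)) := by simp only [hF2]; ring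
        _ ≤ psi u s * d := mul_le_mul_of_nonneg_left h3 hp.le
        _ ≤ psi u L * Real.exp (d / 2) * d := mul_le_mul_of_nonneg_right h2 hd.le
        _ = d * (psi u L * Real.exp (d / 2)) := by ring
    refine h1.trans (le_of_eq ?_)
    rw [intervalIntegral.integral_const, smul_eq_mul]
    ring
  rw [hsp1, hsp2] at hI
  linarith

end

/-! ## Conclusion -/

/-- `E_δ(t)`. -/
noncomputable def Ed (u : ℝ → ℝ) (d t : ℝ) : ℝ := Real.exp d * (psi u t ^ 2 / 2) * brk u d t

lemma j_le {u : ℝ → ℝ} {j : ℝ → ℝ → ℝ} (hu : ∀ t, 1 / 2 < u t) (hj : ∀ t s, 1 ≤ j t s)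
    (ha : ∀ s t, u s ≤ Real.exp |s - t| * u t)
    (hc : ∀ t δ, 0 < δ → (j t (t + δ) - 1) * u (t + δ) + (j t (t - δ) - 1) * u (t - δ) ≤
      2 * Real.cosh δ * (u t - 1 / 2) - (u (t + δ) - 1 / 2) - (u (t - δ) - 1 / 2))
    (t d : ℝ) (hd : 0 < d) : j t (t + d) + j t (t - d) - 2 ≤ Ed u d t := by
  have hut : 0 < u t := by linarith [hu t]
  have h1 := ha t (t + d)
  have h2 := ha t (t - d)
  have e1 : |t - (t + d)| = d := by rw [sub_add_cancel_left, abs_neg, abs_of_pos hd]
  have e2 : |t - (t - d)| = d := by rw [sub_sub_cancel, abs_of_pos hd]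
  rw [e1] at h1
  rw [e2] at h2
  have h3 := hc t d hd
  have hj1 := hj t (t + d)
  have hj2 := hj t (t - d)
  have he := Real.exp_pos d
  -- (jp - 1) u t ≤ e^d (jp - 1) up
  have h4 : (j t (t + d) + j t (t - d) - 2) * u t ≤ Real.exp d *
      (2 * Real.cosh d * (u t - 1 / 2) - (u (t + d) - 1 / 2) - (u (t - d) - 1 / 2)) := by
    have h5 := mul_le_mul_of_nonneg_left h1 (by linarith : 0 ≤ j t (t + d) - 1)
    have h6 := mul_le_mul_of_nonneg_left h2 (by linarith : 0 ≤ j t (t - d) - 1)
    have h7 := mul_le_mul_of_nonneg_left h3 he.le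
    nlinarith
  have h8 : brk u d t * (u t - 1 / 2) =
      2 * Real.cosh d * (u t - 1 / 2) - (u (t + d) - 1 / 2) - (u (t - d) - 1 / 2) := by
    unfold brk
    rw [Real.exp_sub, Real.exp_sub, exp_vv hu, exp_vv hu, exp_vv hu]
    have h6 : (u t - 1 / 2) ≠ 0 := by linarith [hu t]
    have key : ∀ c w a b : ℝ, w ≠ 0 → (2 * c - a / w - b / w) * w = 2 * c * w - a - b := by
      intro c w a b hw
      field_simp
    exact key _ _ _ _ h6
  have h9 : Ed u d t * u t = Real.exp d *
      (2 * Real.cosh d * (u t - 1 / 2) - (u (t + d) - 1 / 2) - (u (t - d) - 1 / 2)) := by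
    unfold Ed
    rw [psi_sq hu, ← h8]
    have : (2 - 1 / u t) * u t = 2 * (u t - 1 / 2) := by field_simp
    calc Real.exp d * ((2 - 1 / u t) / 2) * brk u d t * u t
        = Real.exp d * brk u d t * ((2 - 1 / u t) * u t) / 2 := by ring
      _ = Real.exp d * (brk u d t * (u t - 1 / 2)) := by rw [this]; ring
  rw [← h9] at h4
  exact le_of_mul_le_mul_right h4 hut

/-- The step sizes. -/
noncomputable def dn (n : ℕ) : ℝ := 1 / ((n : ℝ) + 11)

lemma dn_pos (n : ℕ) : 0 < dn n := by unfold dn; positivity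

lemma dn_le (n : ℕ) : dn n ≤ 1 / 10 := by
  unfold dn
  apply one_div_le_one_div_of_le (by norm_num)
  have : (0 : ℝ) ≤ n := Nat.cast_nonneg n
  linarith

lemma dn_tendsto : Tendsto dn atTop (𝓝 0) := by
  unfold dn
  have h : Tendsto (fun n : ℕ => (n : ℝ) + 11) atTop atTop :=
    tendsto_atTop_add_const_right _ _ tendsto_natCast_atTop_atTop
  simpa using h.inv_tendsto_atTop.congr (fun n => by simp)

theorem ge3 : St_GE3 := by
  intro u j L hL hu hj ha hb hc
  have hps := psi_cont hu hb
  have hE0 : ∀ n t, 0 ≤ Ed u (dn n) t := by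
    intro n t
    have h1 := j_le hu hj ha hc t (dn n) (dn_pos n)
    have h2 := hj t (t + dn n)
    have h3 := hj t (t - dn n)
    linarith
  have hEc : ∀ n, Continuous (Ed u (dn n)) := by
    intro n
    have := brk_cont hu hb (dn n)
    unfold Ed
    fun_prop
  refine ⟨fun t => liminf (fun n : ℕ => ENNReal.ofReal (Ed u (dn n) t / dn n ^ 2)) atTop, ?_, ?_, ?_⟩
  · apply Measurable.liminf
    intro n
    exact ENNReal.measurable_ofReal.comp ((hEc n).div_const _).measurable
  · intro t _
    have h1 : Tendsto dn atTop (𝓝[>] 0) :=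
      tendsto_nhdsWithin_iff.mpr ⟨dn_tendsto, Eventually.of_forall dn_pos⟩
    calc liminf (fun δ : ℝ => ENNReal.ofReal ((j t (t + δ) + j t (t - δ) - 2) / δ ^ 2)) (𝓝[>] 0)
        ≤ liminf (fun δ : ℝ => ENNReal.ofReal ((j t (t + δ) + j t (t - δ) - 2) / δ ^ 2))
          (map dn atTop) := liminf_le_liminf_of_le h1
      _ = liminf (fun n : ℕ => ENNReal.ofReal
          ((j t (t + dn n) + j t (t - dn n) - 2) / dn n ^ 2)) atTop := by
            rw [← liminf_comp]; rfl
      _ ≤ _ := by
        refine liminf_le_liminf (Eventually.of_forall fun n => ?_)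
        exact ENNReal.ofReal_le_ofReal
          (div_le_div_of_nonneg_right (j_le hu hj ha hc t (dn n) (dn_pos n)) (by positivity))
  · set S : ℝ := ∫ t in (0 : ℝ)..L, Real.sqrt (2 - 1 / u t) with hS
    have hS' : S = ∫ t in (0 : ℝ)..L, psi u t := rfl
    have hS0 : 0 ≤ S := by
      rw [hS']
      exact intervalIntegral.integral_nonneg hL.le (fun t _ => (psi_pos hu t).le)
    -- the bound for each n
    set B : ℕ → ℝ := fun n => Real.exp (dn n) / 2 *
      (Real.exp (dn n ^ 2 / 2) * S + Real.exp (dn n / 2) * (psi u 0 + psi u L)) with hB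
    have hBt : Tendsto B atTop (𝓝 ((S + Real.sqrt (2 - 1 / u 0) + Real.sqrt (2 - 1 / u L)) / 2)) := by
      have hc1 : Continuous (fun d : ℝ => Real.exp d / 2 *
        (Real.exp (d ^ 2 / 2) * S + Real.exp (d / 2) * (psi u 0 + psi u L))) := by fun_prop
      have h2 := (hc1.tendsto 0).comp dn_tendsto
      have h3 : Real.exp 0 / 2 * (Real.exp (0 ^ 2 / 2) * S + Real.exp (0 / 2) * (psi u 0 + psi u L)) =
          (S + Real.sqrt (2 - 1 / u 0) + Real.sqrt (2 - 1 / u L)) / 2 := by
        simp only [psi]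
        norm_num
        ring
      rw [← h3]
      exact h2
    have hle : ∀ᶠ n in atTop, ∫⁻ t in Ioo 0 L, ENNReal.ofReal (1 / psi u t) *
        ENNReal.ofReal (Ed u (dn n) t / dn n ^ 2) ≤ ENNReal.ofReal (B n) := by
      have hev : ∀ᶠ n in atTop, dn n < L := dn_tendsto.eventually (gt_mem_nhds hL)
      filter_upwards [hev] with n hn
      have hd := dn_pos n
      have hfun : ∀ t, ENNReal.ofReal (1 / psi u t) * ENNReal.ofReal (Ed u (dn n) t / dn n ^ 2) =
          ENNReal.ofReal (Real.exp (dn n) / (2 * dn n ^ 2) * (psi u t * brk u (dn n) t)) := by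
        intro t
        have hp := psi_pos hu t
        rw [← ENNReal.ofReal_mul (by positivity)]
        congr 1
        unfold Ed
        field_simp
      simp_rw [hfun]
      have hnn : ∀ t, 0 ≤ Real.exp (dn n) / (2 * dn n ^ 2) * (psi u t * brk u (dn n) t) := by
        intro t
        have hp := psi_pos hu t
        have h1 := hE0 n t
        unfold Ed at h1
        have h2 : 0 ≤ brk u (dn n) t := by
          by_contra hcon
          push Not at hcon
          have : Real.exp (dn n) * (psi u t ^ 2 / 2) * brk u (dn n) t < 0 :=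
            mul_neg_of_pos_of_neg (by positivity) hcon
          linarith
        positivity
      have hcc : Continuous (fun t => Real.exp (dn n) / (2 * dn n ^ 2) * (psi u t * brk u (dn n) t)) := by
        have := brk_cont hu hb (dn n)
        fun_prop
      have hio : IntegrableOn
          (fun t => Real.exp (dn n) / (2 * dn n ^ 2) * (psi u t * brk u (dn n) t)) (Ioo 0 L) volume :=
        (hcc.continuousOn.integrableOn_compact isCompact_Icc).mono_set Ioo_subset_Icc_self
      rw [← ofReal_integral_eq_lintegral_ofReal hio (Eventually.of_forall hnn)]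
      apply ENNReal.ofReal_le_ofReal
      rw [← integral_Ioc_eq_integral_Ioo, ← intervalIntegral.integral_of_le hL.le,
        intervalIntegral.integral_const_mul]
      have hm := main_ineq hu hb hL hd (dn_le n) hn.le
      rw [← hS'] at hm
      have hch := cosh_ub (d := dn n)
      have h5 : ∫ t in (0 : ℝ)..L, psi u t * brk u (dn n) t ≤ dn n ^ 2 *
          (Real.exp (dn n ^ 2 / 2) * S + Real.exp (dn n / 2) * (psi u 0 + psi u L)) := by
        have := mul_le_mul_of_nonneg_right hch hS0
        nlinarith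
      have h6 := mul_le_mul_of_nonneg_left h5
        (by positivity : 0 ≤ Real.exp (dn n) / (2 * dn n ^ 2))
      refine h6.trans (le_of_eq ?_)
      simp only [hB]
      field_simp
    calc ∫⁻ t in Ioo 0 L, ENNReal.ofReal (1 / Real.sqrt (2 - 1 / u t)) *
          liminf (fun n : ℕ => ENNReal.ofReal (Ed u (dn n) t / dn n ^ 2)) atTop
        = ∫⁻ t in Ioo 0 L, liminf (fun n : ℕ => ENNReal.ofReal (1 / psi u t) *
          ENNReal.ofReal (Ed u (dn n) t / dn n ^ 2)) atTop := by
          apply lintegral_congr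
          intro t
          rw [ENNReal.liminf_const_mul_of_ne_top ENNReal.ofReal_ne_top]
          rfl
      _ ≤ liminf (fun n : ℕ => ∫⁻ t in Ioo 0 L, ENNReal.ofReal (1 / psi u t) *
          ENNReal.ofReal (Ed u (dn n) t / dn n ^ 2)) atTop := by
          apply lintegral_liminf_le
          intro n
          have hpm := hps.measurable
          exact ((ENNReal.measurable_ofReal.comp (hpm.const_div 1))).mul
            (ENNReal.measurable_ofReal.comp ((hEc n).div_const _).measurable)
      _ ≤ liminf (fun n : ℕ => ENNReal.ofReal (B n)) atTop := liminf_le_liminf hle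
      _ = ENNReal.ofReal ((S + Real.sqrt (2 - 1 / u 0) + Real.sqrt (2 - 1 / u L)) / 2) :=
          (ENNReal.tendsto_ofReal hBt).liminf_eq

end Pool.Agent.Helper64.PM
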